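import Pool.Agent.RL.Power

/-!
# Either the reflection conjecture holds for `S`, or there are long proofs for every exponent
-/

namespace Pool.Agent.RL

open Pool.Agent.H19
open Pool.Agent.H19.T

/-- The number described by `v`. -/
def mOf (v : T) : ℕ := 200 * v.left.len + v.right.len

section
variable (S : Set Fm) (μ : Fm) (fP f₀ : T → T)

/-- With data `D` the program described by `D` fails to output an `S`-proof of the reflection
sentence for the number in `w`. -/
def Fails (D v w : T) : Prop :=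
  D.left.right.right.len ≤ mOf v ∧
    ¬ IsProof S (decProof (simul (T.node D.left.left.left w)))
      (rfn (decFm (fP D.right)) μ w.left.len)

open Classical in
/-- The decider of the theory which reports failures; the argument is `node D (node x w)`. -/
noncomputable def GG (z : T) : T :=
  if (falsum (unfalsum z.right.left)).enc = z.right.left ∧
    Fails S μ fP z.left (unfalsum z.right.left) z.right.right
  then T.node T.leaf T.leaf else f₀ z.right.left

end

theorem mOf_polyNat {v : T → T} (hv : PolyTime v) : PolyNat (fun z => mOf (v z)) :=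
  ((PolyNat.const 200).mul (PolyNat.len hv.left)).add (PolyNat.len hv.right)

theorem GG_polyTime {S : Set Fm} {μ : Fm} {fP f₀ : T → T} (hS : DecTh S)
    (hfP : PolyTime fP) (hf₀ : PolyTime f₀) : PolyTime (GG S μ fP f₀) := by
  have i := PolyTime.id
  have hv : PolyTime (fun z : T => unfalsum z.right.left) :=
    uu_polyTime.comp i.right.left.right.left.right.left
  have hdec : PolyDec (fun z : T => (falsum (unfalsum z.right.left)).enc = z.right.left ∧
    Fails S μ fP z.left (unfalsum z.right.left) z.right.right) := by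
    refine (PolyDec.eq (falsum_polyTime.comp hv) i.right.left).and
      ((PolyDec.le (PolyNat.len i.left.left.right.right) (mOf_polyNat hv)).and
        (PolyDec.not ?_))
    have h := (isProof_polyDec hS).comp ((simul_polyTime.comp
      (i.left.left.left.left.node i.right.right)).node
        (rfn_polyTime μ (hfP.comp i.left.right) (PolyNat.len i.right.right.left)))
    refine h.congr fun z => ?_
    simp only [T.left_node, T.right_node, decFm_enc]
  refine (PolyTime.ifP hdec (PolyTime.const (T.node T.leaf T.leaf))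
      (hf₀.comp i.right.left)).congr fun z => ?_
  unfold GG
  split_ifs <;> rfl

/-! ### The programs -/

section
variable (cG cM cm cL : Code)

/-- The program which computes the number and the budget. -/
def wC (K j : ℕ) : Code :=
  Code.comp (Code.pair Code.id (Code.comp (powC cM j) cL)) (Code.comp (powC cM K) cm)

/-- The program with data `D`. -/
def prog (D : T) : Code :=
  Code.comp cG (Code.pair (Code.const D) (Code.pair Code.id
    (wC cM cm cL D.left.right.left.len D.left.left.right.len)))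

/-- Its code. -/
def progE (D : T) : T :=
  T.node (T.unary 5) (T.node cG.enc (T.node (T.unary 4) (T.node (qt D) (T.node (T.unary 4)
    (T.node Code.id.enc (T.node (T.unary 5) (T.node (T.node (T.unary 4) (T.node Code.id.enc
      (T.node (T.unary 5) (T.node (powE cM.enc D.left.left.right.len) cL.enc))))
      (T.node (T.unary 5) (T.node (powE cM.enc D.left.right.left.len) cm.enc)))))))))

theorem progE_eq (D : T) : progE cG cM cm cL D = (prog cG cM cm cL D).enc := by
  simp only [progE, prog, wC, Code.enc, qt_eq, powE_eq]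

theorem progE_polyTime : PolyTime (progE cG cM cm cL) := by
  have i := PolyTime.id
  have c : ∀ a : T, PolyTime (fun _ => a) := fun a => PolyTime.const a
  exact (c _).node ((c _).node ((c _).node (qt_polyTime.node ((c _).node
    ((c _).node ((c _).node (((c _).node ((c _).node
      ((c _).node ((powE_polyTime cM.enc (PolyNat.len i.left.left.right)).node (c _))))).node
      ((c _).node ((powE_polyTime cM.enc (PolyNat.len i.left.right.left)).node (c _))))))))))

end

/-- The exponent of the clock. -/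
def kap (β : ℕ) (D : T) : ℕ :=
  β * ((D.left.right.left.len + 3) * (D.left.left.right.len + 3) + D.size)

theorem kap_polyNat (β : ℕ) : PolyNat (kap β) := by
  have i := PolyTime.id
  exact (PolyNat.const β).mul ((((PolyNat.len i.left.right.left).add (PolyNat.const 3)).mul
    ((PolyNat.len i.left.left.right).add (PolyNat.const 3))).add (PolyNat.size i))

/-- The number and the budget, for the data `D` and the input `x`. -/
def WW (D x : T) : T :=
  T.node (T.unary (mOf (unfalsum x) ^ D.left.right.left.len))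
    (T.unary ((2 * mOf (unfalsum x) ^ D.left.right.left.len + 3) ^ D.left.left.right.len))

/-- The bound for the exponents. -/
theorem exponent_bound (km kM kL dG : ℕ) : ∃ β : ℕ, ∀ K j d : ℕ,
    ∀ e1 e2 e3 e4 e5 e6 e7 : ℕ, e1 = (1 + 1) * km → e2 = (e1 + 4) * (kM + 1) * (K + 3) →
      e3 = e1 + e2 + 1 → e4 = (e2 + 1) * kL → e5 = (e4 + 4) * (kM + 1) * (j + 3) →
      e6 = e3 + (e2 + (e4 + e5 + 1) + 1) + 1 → e7 = d + (1 + e6 + 1) + 1 →
      e7 + (e7 + 1) * dG + 1 ≤ β * ((K + 3) * (j + 3) + d) := by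
  refine ⟨(2 * km + 2 * ((2 * km + 4) * (kM + 1)) + ((2 * km + 4) * (kM + 1) + 1) * kL +
    (((2 * km + 4) * (kM + 1) + 1) * kL + 4) * (kM + 1) + 10) * (dG + 1), ?_⟩
  intro K j d e1 e2 e3 e4 e5 e6 e7 h1 h2 h3 h4 h5 h6 h7
  obtain ⟨a, ha⟩ : ∃ a, a = (2 * km + 4) * (kM + 1) := ⟨_, rfl⟩
  obtain ⟨X, hX⟩ : ∃ X, X = (K + 3) * (j + 3) + d := ⟨_, rfl⟩
  rw [← ha, ← hX]
  have hXj : (j + 3) ≤ X := by rw [hX]; nlinarith [Nat.zero_le (K * j)]
  have hX1 : 1 ≤ X := by omega
  have g2 : e2 * (j + 3) ≤ a * X := by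
    rw [h2, h1, hX, ha]
    have : ((1 + 1) * km + 4) * (kM + 1) * (K + 3) * (j + 3) =
      (2 * km + 4) * (kM + 1) * ((K + 3) * (j + 3)) := by ring
    rw [this]
    exact Nat.mul_le_mul_left _ (by omega)
  have g2' : e2 ≤ a * X := le_trans (Nat.le_mul_of_pos_right _ (by omega)) g2
  have g4 : e4 * (j + 3) ≤ (a + 1) * kL * X := by
    rw [h4]
    calc (e2 + 1) * kL * (j + 3) = kL * (e2 * (j + 3) + (j + 3)) := by ring
      _ ≤ kL * (a * X + X) := Nat.mul_le_mul_left _ (by omega)
      _ = (a + 1) * kL * X := by ring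
  have g4' : e4 ≤ (a + 1) * kL * X := le_trans (Nat.le_mul_of_pos_right _ (by omega)) g4
  have g5 : e5 ≤ ((a + 1) * kL + 4) * (kM + 1) * X := by
    rw [h5]
    calc (e4 + 4) * (kM + 1) * (j + 3) = (kM + 1) * (e4 * (j + 3) + 4 * (j + 3)) := by ring
      _ ≤ (kM + 1) * ((a + 1) * kL * X + 4 * X) := Nat.mul_le_mul_left _ (by omega)
      _ = ((a + 1) * kL + 4) * (kM + 1) * X := by ring
  have g1 : e1 ≤ 2 * km * X := by
    rw [h1]; exact Nat.le_mul_of_pos_right _ (by omega)
  have g7 : e7 + 1 ≤ (2 * km + 2 * a + (a + 1) * kL + ((a + 1) * kL + 4) * (kM + 1) + 9) * X := by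
    have hd : d ≤ X := by rw [hX]; omega
    have : (2 * km + 2 * a + (a + 1) * kL + ((a + 1) * kL + 4) * (kM + 1) + 9) * X =
      2 * km * X + a * X + a * X + (a + 1) * kL * X + ((a + 1) * kL + 4) * (kM + 1) * X +
        9 * X := by ring
    rw [this]
    omega
  obtain ⟨b, hb⟩ : ∃ b, b = 2 * km + 2 * a + (a + 1) * kL + ((a + 1) * kL + 4) * (kM + 1) :=
    ⟨_, rfl⟩
  rw [← hb] at g7 ⊢
  calc e7 + (e7 + 1) * dG + 1 = (e7 + 1) * (dG + 1) := by ring
    _ ≤ ((b + 9) * X) * (dG + 1) := Nat.mul_le_mul_right _ g7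
    _ ≤ ((b + 10) * X) * (dG + 1) := by gcongr; omega
    _ = (b + 10) * (dG + 1) * X := by ring

theorem prog_cost {S : Set Fm} {μ : Fm} {fP f₀ : T → T} (hS : DecTh S)
    (hfP : PolyTime fP) (hf₀ : PolyTime f₀) : ∃ (cG cM cm cL : Code) (β : ℕ), ∀ D x : T,
    ∃ t : ℕ, Eval (prog cG cM cm cL D) x (GG S μ fP f₀ (T.node D (T.node x (WW D x)))) t ∧
      t ≤ (x.size + 2) ^ (kap β D) := by
  have i := PolyTime.id
  obtain ⟨cG, dG, hG⟩ := GG_polyTime (μ := μ) hS hfP hf₀
  obtain ⟨cM, kM, hM⟩ := mulU_polyTime₂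
  obtain ⟨cm, km, hm⟩ : PolyTime (fun x => T.unary (mOf (unfalsum x))) :=
    mOf_polyNat (uu_polyTime.comp i.right.left.right.left)
  obtain ⟨cL, kL, hL⟩ : PolyTime (fun y : T => T.unary (2 * y.len + 3)) :=
    ((PolyNat.const 2).mul (PolyNat.len i)).add (PolyNat.const 3)
  obtain ⟨β, hβ⟩ := exponent_bound km kM kL dG
  refine ⟨cG, cM, cm, cL, β, fun D x => ?_⟩
  obtain ⟨s, hs⟩ : ∃ s, s = x.size + 2 := ⟨_, rfl⟩
  have hs3 : 3 ≤ s := by have := T.size_pos x; omega
  rw [← hs]
  obtain ⟨K, hK⟩ : ∃ K, K = D.left.right.left.len := ⟨_, rfl⟩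
  obtain ⟨j, hj⟩ : ∃ j, j = D.left.left.right.len := ⟨_, rfl⟩
  obtain ⟨m, hmm⟩ : ∃ m, m = mOf (unfalsum x) := ⟨_, rfl⟩
  obtain ⟨e1, he1⟩ : ∃ e, e = (1 + 1) * km := ⟨_, rfl⟩
  obtain ⟨e2, he2⟩ : ∃ e, e = (e1 + 4) * (kM + 1) * (K + 3) := ⟨_, rfl⟩
  obtain ⟨e3, he3⟩ : ∃ e, e = e1 + e2 + 1 := ⟨_, rfl⟩
  obtain ⟨e4, he4⟩ : ∃ e, e = (e2 + 1) * kL := ⟨_, rfl⟩
  obtain ⟨e5, he5⟩ : ∃ e, e = (e4 + 4) * (kM + 1) * (j + 3) := ⟨_, rfl⟩
  obtain ⟨e6, he6⟩ : ∃ e, e = e3 + (e2 + (e4 + e5 + 1) + 1) + 1 := ⟨_, rfl⟩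
  obtain ⟨e7, he7⟩ : ∃ e, e = D.size + (1 + e6 + 1) + 1 := ⟨_, rfl⟩
  have c1 : Cost cm x (T.unary m) s e1 := by
    rw [he1, hmm]
    exact Cost.poly hm hs3 (by rw [pow_one]; omega)
  have z1 : 2 * m + 1 ≤ s ^ e1 := by have := c1.size; rwa [T.size_unary] at this
  have c2 : Cost (powC cM K) (T.unary m) (T.unary (m ^ K)) s e2 := by
    rw [he2]; exact powC_cost hM hs3 z1 K
  have c3 : Cost (Code.comp (powC cM K) cm) x (T.unary (m ^ K)) s e3 := by
    rw [he3]; exact Cost.comp hs3 c1 c2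
  have c4 : Cost cL (T.unary (m ^ K)) (T.unary (2 * m ^ K + 3)) s e4 := by
    have := Cost.poly hL hs3 c2.size
    rw [T.len_unary] at this
    rw [he4]; exact this
  have z4 : 2 * (2 * m ^ K + 3) + 1 ≤ s ^ e4 := by
    have := c4.size; rwa [T.size_unary] at this
  have c5 : Cost (powC cM j) (T.unary (2 * m ^ K + 3)) (T.unary ((2 * m ^ K + 3) ^ j)) s e5 := by
    rw [he5]; exact powC_cost hM hs3 z4 j
  have c6 : Cost (wC cM cm cL K j) x (WW D x) s e6 := by
    rw [he6, wC]
    refine Cost.comp hs3 c3 ?_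
    unfold WW
    rw [← hK, ← hj, ← hmm]
    exact Cost.pair hs3 (Cost.id c2.size) (Cost.comp hs3 c4 c5)
  have c7 : Cost (Code.pair (Code.const D) (Code.pair Code.id (wC cM cm cL K j))) x
      (T.node D (T.node x (WW D x))) s e7 := by
    rw [he7]
    exact Cost.pair hs3 (Cost.const hs3) (Cost.pair hs3 (Cost.id (by rw [pow_one]; omega)) c6)
  have c8 := Cost.comp hs3 c7 (Cost.poly hG hs3 c7.size)
  have hb := hβ K j D.size e1 e2 e3 e4 e5 e6 e7 he1 he2 he3 he4 he5 he6 he7
  have c9 := c8.mono hs3 (e' := kap β D) (by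
    rw [kap, ← hK, ← hj]
    exact hb)
  rw [prog, ← hK, ← hj]
  exact c9

end Pool.Agent.RL
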