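import Pool.Agent.Lib_helper19.Diagonal
import Pool.Agent.Lib_helper19.Classes

/-!
# Programs for powers with variable exponents, and bounds for their cost
-/

namespace Pool.Agent.RL

open Pool.Agent.H19
open Pool.Agent.H19.T

/-! ### Costs as powers -/

/-- The program `c` computes `y` from `x` at cost at most `s ^ e`. -/
def Cost (c : Code) (x y : T) (s e : ℕ) : Prop := ∃ t : ℕ, Eval c x y t ∧ t ≤ s ^ e

theorem Cost.size {c : Code} {x y : T} {s e : ℕ} (h : Cost c x y s e) : y.size ≤ s ^ e := by
  obtain ⟨t, ht, hb⟩ := h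
  exact ht.size_le.trans hb

theorem add_le_pow {s a b : ℕ} (hs : 3 ≤ s) : s ^ a + s ^ b + 1 ≤ s ^ (a + b + 1) := by
  have h1 : 1 ≤ s ^ a := Nat.one_le_pow _ _ (by omega)
  have h2 : 1 ≤ s ^ b := Nat.one_le_pow _ _ (by omega)
  have h3 : s ^ (a + b + 1) = s ^ a * s ^ b * s := by ring
  have h4 : s ^ a * s ^ b * 3 ≤ s ^ a * s ^ b * s := Nat.mul_le_mul_left _ hs
  rw [h3]
  nlinarith

theorem Cost.mono {c : Code} {x y : T} {s e e' : ℕ} (h : Cost c x y s e) (hs : 3 ≤ s)
    (he : e ≤ e') : Cost c x y s e' := by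
  obtain ⟨t, ht, hb⟩ := h
  exact ⟨t, ht, hb.trans (Nat.pow_le_pow_right (by omega) he)⟩

theorem Cost.pair {f g : Code} {x a b : T} {s e e' : ℕ} (hs : 3 ≤ s) (h : Cost f x a s e)
    (h' : Cost g x b s e') : Cost (Code.pair f g) x (T.node a b) s (e + e' + 1) := by
  obtain ⟨t, ht, hb⟩ := h
  obtain ⟨t', ht', hb'⟩ := h'
  refine ⟨_, Eval.pair ht ht', ?_⟩
  have := add_le_pow (a := e) (b := e') hs
  omega

theorem Cost.comp {f g : Code} {x y z : T} {s e e' : ℕ} (hs : 3 ≤ s) (h : Cost g x y s e)
    (h' : Cost f y z s e') : Cost (Code.comp f g) x z s (e + e' + 1) := by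
  obtain ⟨t, ht, hb⟩ := h
  obtain ⟨t', ht', hb'⟩ := h'
  refine ⟨_, Eval.comp ht ht', ?_⟩
  have := add_le_pow (a := e) (b := e') hs
  omega

theorem Cost.id {x : T} {s e : ℕ} (h : x.size ≤ s ^ e) : Cost Code.id x x s e :=
  ⟨_, Eval.id x, h⟩

theorem Cost.const {x a : T} {s : ℕ} (hs : 3 ≤ s) : Cost (Code.const a) x a s a.size :=
  ⟨_, Eval.const x a, (Nat.lt_two_pow_self (n := a.size)).le.trans
    (Nat.pow_le_pow_left (by omega) _)⟩

/-- The cost of a polynomial-time program on an input of polynomial size. -/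
theorem Cost.poly {c : Code} {k : ℕ} {f : T → T}
    (h : ∀ x : T, ∃ t : ℕ, Eval c x (f x) t ∧ t ≤ (x.size + 2) ^ k) {x : T} {s e : ℕ}
    (hs : 3 ≤ s) (hx : x.size ≤ s ^ e) : Cost c x (f x) s ((e + 1) * k) := by
  obtain ⟨t, ht, hb⟩ := h x
  refine ⟨t, ht, hb.trans ?_⟩
  rw [pow_mul]
  refine Nat.pow_le_pow_left ?_ k
  have h1 : 1 ≤ s ^ e := Nat.one_le_pow _ _ (by omega)
  rw [pow_succ]
  have : s ^ e * 3 ≤ s ^ e * s := Nat.mul_le_mul_left _ hs
  omega

/-! ### Powers -/

/-- A program for `K`-th powers of numbers in unary, from a program `cM` for multiplication. -/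
def powC (cM : Code) : ℕ → Code
  | 0 => Code.const (T.unary 1)
  | K + 1 => Code.comp cM (Code.pair Code.id (powC cM K))

theorem powC_cost {cM : Code} {kM : ℕ} (hM : ∀ x : T, ∃ t : ℕ,
    Eval cM x (mulU x.left x.right) t ∧ t ≤ (x.size + 2) ^ kM) {s : ℕ} (hs : 3 ≤ s) {m e : ℕ}
    (hm : 2 * m + 1 ≤ s ^ e) (K : ℕ) :
    Cost (powC cM K) (T.unary m) (T.unary (m ^ K)) s ((e + 4) * (kM + 1) * (K + 3)) := by
  have hout : ∀ K, 2 * m ^ K + 1 ≤ s ^ (e * K + 1) := by
    intro K
    have h1 : m ^ K ≤ (s ^ e) ^ K := Nat.pow_le_pow_left (by omega) K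
    rw [← pow_mul] at h1
    have h2 : 1 ≤ s ^ (e * K) := Nat.one_le_pow _ _ (by omega)
    rw [pow_succ]
    have : s ^ (e * K) * 3 ≤ s ^ (e * K) * s := Nat.mul_le_mul_left _ hs
    omega
  induction K with
  | zero =>
    have h := Cost.const (x := T.unary m) (a := T.unary 1) hs
    refine (h.mono hs ?_)
    simp only [T.size_unary]
    nlinarith [Nat.zero_le e, Nat.zero_le kM]
  | succ K ih =>
    obtain ⟨t, ht, hb⟩ := ih
    have h1 : (T.node (T.unary m) (T.unary (m ^ K))).size ≤ s ^ (e + (e * K + 1) + 1) := by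
      simp only [T.size, T.size_unary]
      have := add_le_pow (a := e) (b := e * K + 1) hs
      have := hout K
      omega
    obtain ⟨t', ht', hb'⟩ := Cost.poly hM hs h1
    simp only [T.left_node, T.right_node, mulU_unary] at ht'
    rw [show m * m ^ K = m ^ (K + 1) by ring] at ht'
    refine ⟨_, Eval.comp (Eval.pair (Eval.id _) ht) ht', ?_⟩
    rw [T.size_unary]
    -- three summands
    have e1 : s ^ ((e + 4) * (kM + 1) * (K + 1 + 3)) =
        s ^ ((e + 4) * (kM + 1) * (K + 3)) * s ^ ((e + 4) * (kM + 1)) := by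
      ring
    have e2 : (e + (e * K + 1) + 1 + 1) * kM + 1 ≤ (e + 4) * (kM + 1) * (K + 3) := by
      have : e + (e * K + 1) + 1 + 1 ≤ (e + 4) * (K + 3) := by nlinarith [Nat.zero_le (e * K)]
      calc (e + (e * K + 1) + 1 + 1) * kM + 1 ≤ (e + 4) * (K + 3) * kM + (e + 4) * (K + 3) := by
            nlinarith [Nat.mul_le_mul_right kM this, Nat.zero_le (e * K)]
        _ = (e + 4) * (kM + 1) * (K + 3) := by ring
    have e3 : e ≤ (e + 4) * (kM + 1) * (K + 3) := by
      nlinarith [Nat.zero_le (e * kM), Nat.zero_le (e * K), Nat.zero_le (e * kM * K),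
        Nat.zero_le (kM * K)]
    have b1 := Nat.pow_le_pow_right (n := s) (by omega) e3
    have b2 := Nat.pow_le_pow_right (n := s) (by omega)
      ((Nat.le_succ _).trans e2)
    have b3 : 1 ≤ s ^ ((e + 4) * (kM + 1) * (K + 3)) := Nat.one_le_pow _ _ (by omega)
    have b4 : 27 ≤ s ^ ((e + 4) * (kM + 1)) := by
      calc 27 = 3 ^ 3 := by norm_num
        _ ≤ s ^ 3 := Nat.pow_le_pow_left hs 3
        _ ≤ _ := Nat.pow_le_pow_right (by omega) (by nlinarith [Nat.zero_le (e * kM)])
    rw [e1]
    nlinarith [Nat.mul_le_mul_left (s ^ ((e + 4) * (kM + 1) * (K + 3))) b4]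

/-- The code of the program for powers, as a function of the exponent. -/
def powE (M : T) (K : ℕ) : T :=
  (fun y => T.node (T.unary 5) (T.node M (T.node (T.unary 4) (T.node Code.id.enc y))))^[K]
    (Code.const (T.unary 1)).enc

theorem powE_eq (cM : Code) (K : ℕ) : powE cM.enc K = (powC cM K).enc := by
  induction K with
  | zero => rfl
  | succ K ih =>
    rw [powE, Function.iterate_succ_apply']
    rw [powE] at ih
    rw [ih]
    rfl

theorem powE_polyTime (M : T) {g : T → ℕ} (hg : PolyNat g) : PolyTime (fun x => powE M (g x)) := by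
  have i := PolyTime.id
  have hstep : PolyTime (fun y => T.node (T.unary 5) (T.node M (T.node (T.unary 4)
      (T.node Code.id.enc y)))) :=
    (PolyTime.const _).node ((PolyTime.const _).node ((PolyTime.const _).node
      ((PolyTime.const _).node i)))
  have := PolyTime.iterate hstep hg.unary
    (PolyTime.const (Code.const (T.unary 1)).enc) (by
      obtain ⟨a, ha⟩ := PolyTime.size_bound hg
      obtain ⟨b, hb⟩ : PolyB (fun n => (M.size + 100) * ((n + 2) ^ a + 1)) :=
        (PolyB.const _).mul (PolyB.add ⟨a, fun _ => le_rfl⟩ (PolyB.const 1))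
      refine ⟨b, fun x i hi => le_trans ?_ (hb x.size)⟩
      have hx := ha x
      rw [T.len_unary] at hi
      rw [T.size_unary] at hx
      have key : ∀ i : ℕ, ((fun y => T.node (T.unary 5) (T.node M (T.node (T.unary 4)
          (T.node Code.id.enc y))))^[i] (Code.const (T.unary 1)).enc).size ≤
          (M.size + 100) * (i + 1) := by
        intro i
        induction i with
        | zero =>
          simp only [Function.iterate_zero, id_eq, Code.const, Code.enc, T.unary, T.size]
          omega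
        | succ i ih =>
          rw [Function.iterate_succ_apply']
          simp only [T.size, T.size_unary, Code.enc] at ih ⊢
          have : (M.size + 100) * (i + 1 + 1) = (M.size + 100) * (i + 1) + (M.size + 100) := by
            ring
          omega
      refine (key i).trans (Nat.mul_le_mul_left _ ?_)
      omega)
  refine this.congr fun x => ?_
  rw [T.len_unary, powE]

/-! ### Comparison with a power -/

/-- One step of the multiplication truncated at a bound. -/
def tStep (y : T) : T :=
  T.node y.left (T.unary (min (y.right.len * y.left.left.len) y.left.right.len))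

theorem tStep_iterate (f g K : ℕ) :
    tStep^[K] (T.node (T.node (T.unary f) (T.unary g)) (T.unary (min 1 g))) =
      T.node (T.node (T.unary f) (T.unary g)) (T.unary (min (f ^ K) g)) := by
  induction K with
  | zero => simp
  | succ K ih =>
    rw [Function.iterate_succ_apply', ih]
    simp only [tStep, T.left_node, T.right_node, T.len_unary]
    congr 2
    rcases Nat.eq_zero_or_pos f with hf | hf
    · subst hf
      simp
    · rw [pow_succ]
      rcases le_total (f ^ K) g with h | h
      · rw [min_eq_left h]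
      · rw [min_eq_right h]
        have h1 : g ≤ g * f := Nat.le_mul_of_pos_right _ hf
        have h2 : g ≤ f ^ K * f := h.trans (Nat.le_mul_of_pos_right _ hf)
        rw [min_eq_right h1, min_eq_right h2]

theorem PolyNat.min {f g : T → ℕ} (hf : PolyNat f) (hg : PolyNat g) :
    PolyNat (fun x => min (f x) (g x)) := by
  classical
  refine (PolyNat.ifP (PolyDec.le hf hg) hf hg).congr fun x => ?_
  congr 1

theorem PolyDec.le_pow {f g h : T → ℕ} (hf : PolyNat f) (hg : PolyNat g) (hh : PolyNat h) :
    PolyDec (fun x => g x ≤ f x ^ h x) := by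
  have i := PolyTime.id
  have hstep : PolyTime tStep := by
    refine i.left.node ?_
    exact PolyNat.min ((PolyNat.len i.right).mul (PolyNat.len i.left.left))
      (PolyNat.len i.left.right)
  have h0 : PolyTime (fun x => T.node (T.node (T.unary (f x)) (T.unary (g x)))
      (T.unary (min 1 (g x)))) :=
    (hf.unary.node hg.unary).node (PolyNat.min (PolyNat.const 1) hg)
  have hit := PolyTime.iterate hstep hh.unary h0 (by
    obtain ⟨a, ha⟩ := PolyTime.size_bound hf
    obtain ⟨b, hb⟩ := PolyTime.size_bound hg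
    obtain ⟨k, hk⟩ : PolyB (fun n => (n + 2) ^ a + (n + 2) ^ b + (n + 2) ^ b + 2) :=
      ((PolyB.add (PolyB.add ⟨a, fun _ => le_rfl⟩ ⟨b, fun _ => le_rfl⟩)
        ⟨b, fun _ => le_rfl⟩)).add (PolyB.const 2)
    refine ⟨k, fun x i _ => le_trans ?_ (hk x.size)⟩
    rw [tStep_iterate]
    have h1 := ha x
    have h2 := hb x
    have h3 : min (f x ^ i) (g x) ≤ g x := min_le_right _ _
    simp only [T.size, T.size_unary] at h1 h2 ⊢
    omega)
  refine (PolyDec.le hg (PolyNat.len hit.right)).congr fun x => ?_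
  rw [tStep_iterate, T.right_node, T.len_unary, T.len_unary]
  omega

end Pool.Agent.RL
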