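import Pool.Agent.RL.Main

/-!
# The dichotomy
-/

namespace Pool.Agent.RL

open Pool.Agent.H19
open Pool.Agent.H19.T

section
variable (S : Set Fm) (μ : Fm) (fP f₀ : T → T) (cG cM cm cL : Code) (β m₁ : ℕ)

/-- The description `v` contains a proof that the theory which reports failures is right for the
number described by `v`. -/
def Success (v q : T) : Prop :=
  m₁ ≤ v.right.left.len ∧ v.left.right.right.len ≤ v.right.left.len ∧
    100 * v.size + m₁ ≤ v.right.left.len ^ v.left.right.left.len ∧
    IsProof S (decProof v.right.right)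
      (rfn (decFm (fP (T.node (progE cG cM cm cL (T.node v.left q))
        (T.unary (kap β (T.node v.left q)))))) μ v.right.left.len)

open Classical in
/-- The decider; its argument is `node x q`. -/
noncomputable def HH (z : T) : T :=
  if (falsum (unfalsum z.left)).enc = z.left ∧
    Success S μ fP cG cM cm cL β m₁ (unfalsum z.left) z.right
  then T.node T.leaf T.leaf else f₀ z.left

end

theorem HH_polyTime {S : Set Fm} {μ : Fm} {fP f₀ : T → T} {cG cM cm cL : Code} {β m₁ : ℕ}
    (hS : DecTh S) (hfP : PolyTime fP) (hf₀ : PolyTime f₀) :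
    PolyTime (HH S μ fP f₀ cG cM cm cL β m₁) := by
  have i := PolyTime.id
  have hv : PolyTime (fun z : T => unfalsum z.left) :=
    uu_polyTime.comp i.left.right.left.right.left
  have hdec : PolyDec (fun z : T => (falsum (unfalsum z.left)).enc = z.left ∧
      Success S μ fP cG cM cm cL β m₁ (unfalsum z.left) z.right) := by
    refine (PolyDec.eq (falsum_polyTime.comp hv) i.left).and
      ((PolyDec.le (PolyNat.const m₁) (PolyNat.len hv.right.left)).and
      ((PolyDec.le (PolyNat.len hv.left.right.right) (PolyNat.len hv.right.left)).and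
      ((PolyDec.le_pow (PolyNat.len hv.right.left)
        (((PolyNat.const 100).mul (PolyNat.size hv)).add (PolyNat.const m₁))
        (PolyNat.len hv.left.right.left)).and ?_)))
    have hD : PolyTime (fun z : T => T.node (unfalsum z.left).left z.right) :=
      hv.left.node i.right
    have h := (isProof_polyDec hS).comp (hv.right.right.node
      (rfn_polyTime μ (hfP.comp (((progE_polyTime cG cM cm cL).comp hD).node
        ((kap_polyNat β).comp hD).unary)) (PolyNat.len hv.right.left)))
    refine h.congr fun z => ?_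
    simp only [T.left_node, T.right_node, decFm_enc]
  refine (PolyTime.ifP hdec (PolyTime.const (T.node T.leaf T.leaf))
      (hf₀.comp i.left)).congr fun z => ?_
  unfold HH
  split_ifs <;> rfl

/-- **Main theorem.** -/
theorem dichotomy (μ : Fm) (hμ : IsUniversal μ) (P : Code → ℕ → Fm) (hP : IsFormalisation μ P)
    (S T₀ : Set Fm) (hS : InClassT S) (hT₀ : InClassT T₀) :
    ∃ d : ℕ, ∀ k : ℕ, ∃ (c : Code) (κ : ℕ), κ ≤ d * (k + 1) ∧ HaltsWithin c κ ∧
      theory c κ = T₀ ∧
      ((¬ ∃ f : T → T, PolyTime f ∧ ∃ n₀ : ℕ, ∀ n ≥ n₀, ∃ π : List Step,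
          f (T.unary n) = encProof π ∧ IsProof S π (rfn (P c κ) μ n)) ∨
        ∃ n₀ : ℕ, ∀ n ≥ n₀, ∀ π : List Step, IsProof S π (rfn (P c κ) μ n) →
          n ^ k < (encProof π).size) := by
  obtain ⟨fP, hfP, hfPc⟩ := hP.poly
  obtain ⟨hc₀, f₀, hf₀, hT₀f⟩ := hT₀
  obtain ⟨e₀, z₀, hfalse⟩ := hμ.false_instance
  have hSdec := DecTh.of_inClassT hS
  obtain ⟨hSc, fS, _, hSf⟩ := hS
  have hSS : S12 ⊆ S := fun φ hφ => (hSf φ).2 (Or.inl hφ)
  have hμb : μ.bdd = true := (Fm.bdd_of _).1 hμ.1
  let φ₀ : Fm := inst3 μ e₀ 0 z₀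
  obtain ⟨m₁, hm₁⟩ : ∃ m₁ : ℕ, m₁ = 3 * (7 * φ₀.enc.size + 1001 + e₀.size + z₀.size + 30000) :=
    ⟨_, rfl⟩
  -- a provable reflection sentence excludes additional axioms
  have hkey : ∀ (c : Code) (κ : ℕ) (v : T) (n : ℕ), falsum v ∈ theory c κ →
      65 * v.size + 7 * φ₀.enc.size + 1001 + e₀.size + z₀.size ≤ n →
      ¬ Provable S (rfn (P c κ) μ n) := by
    intro c κ v n hmem hn hp
    have hsize := refute_size v φ₀
    have hnum := T.num_size (encProof (refute v φ₀))
    have hcorrect : (P c κ).sat stdN (vec4 e₀ 0 z₀ (encProof (refute v φ₀)).num) :=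
      (hP.correct c κ e₀ 0 z₀ _).2 ⟨_, rfl, refute_isProof hmem φ₀⟩
    have hPb : (P c κ).bdd = true := (Fm.bdd_of _).1 (hP.delta c κ).1
    have h1 := rfn_sound hSS hSc hPb hμb hp (e := e₀) (x := 0) (z := z₀)
      (u := (encProof (refute v φ₀)).num)
      (by omega) (by simp) (by omega)
      (by rw [hnum]; omega) hcorrect
    refine hfalse ((Fm.sat_congr_below stdN μ hμ.2.1 (fun i hi => ?_)).1 h1)
    rcases i with _ | _ | _ | i
    · rfl
    · rfl
    · rfl
    · omega
  obtain ⟨cG, cM, cm, cL, β, hprog⟩ := prog_cost (μ := μ) hSdec hfP hf₀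
  have haccP : ∀ D x : T, Accepts (prog cG cM cm cL D) (kap β D) x ↔
      GG S μ fP f₀ (T.node D (T.node x (WW D x))) ≠ T.leaf := by
    intro D x
    obtain ⟨t, ht, hb⟩ := hprog D x
    exact accepts_iff ht hb
  obtain ⟨c, κ, hcκ⟩ := recursion (HH_polyTime (μ := μ) (cG := cG) (cM := cM) (cm := cm)
    (cL := cL) (β := β) (m₁ := m₁) hSdec hfP hf₀)
  have hacc : ∀ x : T, Accepts c κ x ↔
      HH S μ fP f₀ cG cM cm cL β m₁ (T.node x (T.node c.enc (T.unary κ))) ≠ T.leaf := by
    intro x
    obtain ⟨t, ht, hb⟩ := hcκ x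
    exact accepts_iff ht hb
  let q : T := T.node c.enc (T.unary κ)
  have hPq : fP q = (P c κ).enc := hfPc c κ
  -- there is no success
  have hno : ∀ v : T, ¬ Success S μ fP cG cM cm cL β m₁ v q := by
    intro v hv
    have hmem : falsum v ∈ theory c κ := by
      refine Or.inr ((hacc _).2 ?_)
      have : HH S μ fP f₀ cG cM cm cL β m₁ (T.node (falsum v).enc q) =
          T.node T.leaf T.leaf := by
        simp only [HH, T.left_node, T.right_node]
        rw [if_pos]
        exact ⟨by rw [unfalsum_enc], by rw [unfalsum_enc]; exact hv⟩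
      rw [this]; simp
    obtain ⟨hv1, hv2, hv3, hv4⟩ := hv
    obtain ⟨D, hD⟩ : ∃ D, D = T.node v.left q := ⟨_, rfl⟩
    rw [← hD, progE_eq, hfPc, decFm_enc] at hv4
    obtain ⟨m, hm⟩ : ∃ m, m = v.right.left.len := ⟨_, rfl⟩
    rw [← hm] at hv1 hv2 hv3 hv4
    -- the theory which reports failures does not report a failure
    have h1 : ¬ Fails S μ fP D (T.node (T.unary (m / 200)) (T.unary (m % 200)))
        (WW D (falsum (T.node (T.unary (m / 200)) (T.unary (m % 200)))).enc) := by
      intro hF
      refine hkey (prog cG cM cm cL D) (kap β D)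
        (T.node (T.unary (m / 200)) (T.unary (m % 200))) m ?_ ?_ ⟨_, hv4⟩
      · refine Or.inr ((haccP _ _).2 ?_)
        have : GG S μ fP f₀ (T.node D (T.node
            (falsum (T.node (T.unary (m / 200)) (T.unary (m % 200)))).enc
            (WW D (falsum (T.node (T.unary (m / 200)) (T.unary (m % 200)))).enc))) =
            T.node T.leaf T.leaf := by
          simp only [GG, T.left_node, T.right_node]
          rw [if_pos]
          exact ⟨by rw [unfalsum_enc], by rw [unfalsum_enc]; exact hF⟩
        rw [this]; simp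
      · simp only [T.size, T.size_unary]
        omega
    have hmOf : mOf (T.node (T.unary (m / 200)) (T.unary (m % 200))) = m := by
      simp only [mOf, T.left_node, T.right_node, T.len_unary]; omega
    have h2 : IsProof S (decProof (simul (T.node D.left.left.left
        (WW D (falsum (T.node (T.unary (m / 200)) (T.unary (m % 200)))).enc))))
        (rfn (P c κ) μ (m ^ v.left.right.left.len)) := by
      by_contra hcon
      refine h1 ⟨?_, ?_⟩
      · rw [hmOf, hD, T.left_node]; exact hv2
      · rw [hD, T.right_node, hPq, decFm_enc, ← hD]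
        have : (WW D (falsum (T.node (T.unary (m / 200))
            (T.unary (m % 200)))).enc).left.len = m ^ v.left.right.left.len := by
          simp only [WW, T.left_node, T.len_unary]
          rw [unfalsum_enc, hmOf, hD, T.left_node]
        rw [this]
        exact hcon
    exact hkey c κ v _ hmem (by omega) ⟨_, h2⟩
  have hhalt : HaltsWithin c κ := fun x => ⟨_, hcκ x⟩
  have hth : theory c κ = T₀ := by
    ext φ
    rw [hT₀f]
    show (φ ∈ S12 ∨ Accepts c κ φ.enc) ↔ _
    rw [hacc]
    have : HH S μ fP f₀ cG cM cm cL β m₁ (T.node φ.enc (T.node c.enc (T.unary κ))) =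
        f₀ φ.enc := by
      simp only [HH, T.left_node, T.right_node]
      rw [if_neg fun h => hno _ h.2]
    rw [this]
  by_cases hf : ∃ f : T → T, PolyTime f ∧ ∃ n₀ : ℕ, ∀ n ≥ n₀, ∃ π : List Step,
      f (T.unary n) = encProof π ∧ IsProof S π (rfn (P c κ) μ n)
  swap
  · exact ⟨κ, fun k => ⟨c, κ, Nat.le_mul_of_pos_right _ (by omega), hhalt, hth, Or.inl hf⟩⟩
  obtain ⟨f, ⟨a, j, ha⟩, n₀, hn₀⟩ := hf
  obtain ⟨b, hb⟩ : ∃ b : T, b = T.node (T.node a.enc (T.unary j)) T.leaf := ⟨_, rfl⟩
  refine ⟨β * (5 * (j + 3) + (a.enc.size + 2 * j + 2 * n₀ + q.size + 20)), fun k => ?_⟩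
  obtain ⟨D₀, hD₀⟩ : ∃ D₀ : T, D₀ = T.node (T.node a.enc (T.unary j))
    (T.node (T.unary (k + 2)) (T.unary (n₀ + 1))) := ⟨_, rfl⟩
  obtain ⟨D, hD⟩ : ∃ D, D = T.node D₀ q := ⟨_, rfl⟩
  refine ⟨prog cG cM cm cL D, kap β D, ?_, fun x => ⟨_, hprog D x⟩, ?_, Or.inr ?_⟩
  · -- the clock
    have h1 : (k + 2 + 3) * (j + 3) ≤ 5 * (j + 3) * (k + 1) := by nlinarith [Nat.zero_le (k * j)]
    have h2 : D.size ≤ (a.enc.size + 2 * j + 2 * n₀ + q.size + 20) * (k + 1) := by
      have h3 : D.size = a.enc.size + 2 * j + 2 * n₀ + q.size + 2 * k + 13 := by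
        rw [hD, hD₀]
        simp only [T.size, T.size_unary]; omega
      rw [h3]
      nlinarith [Nat.zero_le (a.enc.size * k), Nat.zero_le (j * k), Nat.zero_le (n₀ * k),
        Nat.zero_le (q.size * k)]
    have h4 : D.left.right.left.len = k + 2 := by
      rw [hD, hD₀]; simp only [T.left_node, T.right_node, T.len_unary]
    have h5 : D.left.left.right.len = j := by
      rw [hD, hD₀]; simp only [T.left_node, T.right_node, T.len_unary]
    rw [kap, h4, h5]
    calc β * ((k + 2 + 3) * (j + 3) + D.size)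
        ≤ β * (5 * (j + 3) * (k + 1) +
          (a.enc.size + 2 * j + 2 * n₀ + q.size + 20) * (k + 1)) :=
          Nat.mul_le_mul_left _ (by omega)
      _ = _ := by ring
  · -- the theory
    ext φ
    rw [hT₀f]
    show (φ ∈ S12 ∨ Accepts _ _ φ.enc) ↔ _
    rw [haccP]
    have : GG S μ fP f₀ (T.node D (T.node φ.enc (WW D φ.enc))) = f₀ φ.enc := by
      simp only [GG, T.left_node, T.right_node]
      rw [if_neg]
      rintro ⟨_, h1, h2⟩
      apply h2
      obtain ⟨m, hm⟩ : ∃ m, m = mOf (unfalsum φ.enc) := ⟨_, rfl⟩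
      rw [← hm] at h1
      have e1 : D.left.left.left = a.enc := by rw [hD, hD₀]; simp only [T.left_node]
      have e2 : D.right = q := by rw [hD]; rfl
      have e3 : WW D φ.enc = T.node (T.unary (m ^ (k + 2)))
          (T.unary ((2 * m ^ (k + 2) + 3) ^ j)) := by
        rw [WW, ← hm, hD, hD₀]
        simp only [T.left_node, T.right_node, T.len_unary]
      have e4 : n₀ + 1 ≤ m := by
        rw [hD, hD₀] at h1
        simpa only [T.left_node, T.right_node, T.len_unary] using h1
      have e5 : n₀ ≤ m ^ (k + 2) := by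
        calc n₀ ≤ m := by omega
          _ = m ^ 1 := (pow_one m).symm
          _ ≤ m ^ (k + 2) := Nat.pow_le_pow_right (by omega) (by omega)
      obtain ⟨π, hπ, hpf⟩ := hn₀ _ e5
      obtain ⟨t, ht, hb⟩ := ha (T.unary (m ^ (k + 2)))
      rw [T.size_unary] at hb
      have e6 := simul_spec ht (b := (2 * m ^ (k + 2) + 3) ^ j) (by
        refine hb.trans (le_of_eq ?_); congr 1)
      rw [e1, e2, e3, hPq, decFm_enc, e6, hπ, decProof_enc, T.left_node, T.len_unary]
      exact hpf
    rw [this]
  · -- the proofs are long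
    refine ⟨100 * D₀.size + m₁ + 1000, fun m hm π hπ => ?_⟩
    by_contra hcon
    have hcon' : (encProof π).size ≤ m ^ k := by omega
    refine hno (T.node D₀ (T.node (T.unary m) (encProof π))) ⟨?_, ?_, ?_, ?_⟩
    · simp only [T.left_node, T.right_node, T.len_unary]; omega
    · have h1 : n₀ + 1 ≤ D₀.size := by
        rw [hD₀]; simp only [T.size, T.size_unary]; omega
      have h2 : D₀.right.right.len = n₀ + 1 := by
        rw [hD₀]; simp only [T.right_node, T.len_unary]
      simp only [T.left_node, T.right_node, T.len_unary]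
      rw [h2]
      omega
    · have h2 : D₀.right.left.len = k + 2 := by
        rw [hD₀]; simp only [T.left_node, T.right_node, T.len_unary]
      simp only [T.left_node, T.right_node, T.len_unary, T.size, T.size_unary]
      rw [h2]
      have h3 : 1 ≤ m ^ k := Nat.one_le_pow _ _ (by omega)
      have h4 : m ^ (k + 2) = m ^ k * (m * m) := by ring
      have h5 : 100 * D₀.size + m₁ + 700 + 200 * m ≤ m * m := by
        have : (100 * D₀.size + m₁ + 1000) * m ≤ m * m := Nat.mul_le_mul_right _ hm
        have h6 : 1 ≤ m := by omega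
        nlinarith [Nat.mul_le_mul_left (100 * D₀.size + m₁ + 700) h6]
      rw [h4]
      have h7 : m ^ k * (100 * D₀.size + m₁ + 700 + 200 * m) ≤ m ^ k * (m * m) :=
        Nat.mul_le_mul_left _ h5
      have h8 : (100 * D₀.size + m₁ + 600 + 200 * m) ≤
          m ^ k * (100 * D₀.size + m₁ + 600 + 200 * m) := Nat.le_mul_of_pos_left _ (by omega)
      have h9 : m ^ k * (100 * D₀.size + m₁ + 700 + 200 * m) =
          m ^ k * (100 * D₀.size + m₁ + 600 + 200 * m) + 100 * m ^ k := by ring
      omega
    · simp only [T.left_node, T.right_node, T.len_unary]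
      rw [← hD, progE_eq, hfPc, decFm_enc, decProof_enc]
      exact hπ

end Pool.Agent.RL
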